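import Mathlib
import Pool.Agent.Helper34_VC.Upper
import Pool.Agent.Helper34_VC.Low

/-! Cliques with few colours in edge-colourings whose colour classes have bounded VC-dimension. -/

namespace Pool.Agent.Results.MP_1090a0_co.BoundedVC

open Pool.Agent.Helper34_VC

/-- `ForcesVC d p k n` says that every `k`-edge-colouring of `K_n` all of whose colour classes have
VC-dimension at most `d` contains a `K_p` with at most `p - 2` colours.

Upper bound: for `d ≥ 1`, `p ≥ 4`, `k ≥ 2` this holds for every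
`n > exp (124 (d / log (d + 1)) (log k)^2 + (p - 4) log (2 k))`.

Lower bound: for `r ≥ 1` there are `c > 0` and `k₀` such that for `k ≥ k₀`, `4 ≤ p < 2^(r+2)` and
`d ≥ 1` every `n` with this property is at least
`exp (c (log k)^(1+1/r) / (log log k)^(1/r))`. -/
theorem result :
    (∀ d p k n : ℕ, 1 ≤ d → 4 ≤ p → 2 ≤ k →
      Real.exp (124 * (d / Real.log (d + 1)) * (Real.log k) ^ 2 + (p - 4) * Real.log (2 * k)) < n →
      ForcesVC d p k n) ∧
    (∀ r : ℕ, 1 ≤ r → ∃ c : ℝ, 0 < c ∧ ∃ k₀ : ℕ, ∀ k : ℕ, k₀ ≤ k →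
      ∀ p : ℕ, 4 ≤ p → p < 2 ^ (r + 2) → ∀ d : ℕ, 1 ≤ d → ∀ n : ℕ, ForcesVC d p k n →
        Real.exp (c * (Real.log k) ^ (1 + 1 / (r : ℝ)) /
          (Real.log (Real.log k)) ^ (1 / (r : ℝ))) ≤ n) := by
  refine ⟨fun d p k n hd hp hk hn => upper d p k n hd hp hk hn, fun r hr => ?_⟩
  obtain ⟨c, hc, k₀, h⟩ := lower r hr
  exact ⟨c, hc, k₀, fun k hk p hp hp' d hd n hF => h k hk p (by omega) hp' d hd n hF⟩

end Pool.Agent.Results.MP_1090a0_co.BoundedVC
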