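import Mathlib
import Pool.Agent.Helper73_EG.Final7

/-! The lower bound `log F(p, k) ≥ c (log k)^3 / (log log k)^3` for `4 ≤ p ≤ 7`. -/

namespace Pool.Agent.Results.MP_1090a0_co.HashLower

open Pool.Agent.Helper73_EG

/-- There are `c > 0` and `k₀` such that for all `k ≥ k₀` and `4 ≤ p ≤ 7`, every `n` for which each
`k`-edge-colouring of `K_n` contains a `K_p` with at most `p - 2` colours satisfies
`n ≥ exp (c (log k)^3 / (log log k)^3)`. -/
theorem result : ∃ c : ℝ, 0 < c ∧ ∃ k₀ : ℕ, ∀ k : ℕ, k₀ ≤ k → ∀ p : ℕ, 4 ≤ p → p ≤ 7 →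
    ∀ n : ℕ, Forces p k n →
      Real.exp (c * (Real.log k) ^ 3 / (Real.log (Real.log k)) ^ 3) ≤ n :=
  main7

end Pool.Agent.Results.MP_1090a0_co.HashLower
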