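import Mathlib
import Pool.Agent.Helper73_EG.Final

/-! Lower bounds for `log F(p, k)`: exponent `1 + 1/r` of `log k` whenever `p < 2^(r+2)`. -/

namespace Pool.Agent.Results.MP_1090a0_co.WindowLower

open Pool.Agent.Helper73_EG

/-- For `r ≥ 1` and `4 ≤ p < 2^(r+2)` there is `c > 0` such that for all `k ≥ 2` every `n` for which
each `k`-edge-colouring of `K_n` contains a `K_p` with at most `p - 2` colours satisfies
`n ≥ exp (c (log k)^(1 + 1/r))`. -/
theorem result (r : ℕ) (hr : 1 ≤ r) (p : ℕ) (hp : 4 ≤ p) (hp' : p < 2 ^ (r + 2)) :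
    ∃ c : ℝ, 0 < c ∧ ∀ k : ℕ, 2 ≤ k → ∀ n : ℕ, Forces p k n →
      Real.exp (c * (Real.log k) ^ (1 + 1 / (r : ℝ))) ≤ n :=
  main r hr p hp hp'

end Pool.Agent.Results.MP_1090a0_co.WindowLower
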